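import Pool.Agent.Lib.MP_b3782f_an.H79b.Iface

/-!
# MP_b3782f_an, module SEQ

Author: helper3. Choice of a fast subsequence `α j = 2 ^ j • a (n j)` such that all products
`y * (monomial of degree 1..N in the α)` have norm at most one.
-/

set_option autoImplicit false

namespace Pool.Agent.Lib.MP_b3782f_an.H3

open Pool.Agent.Lib.MP_b3782f_an.H79b

theorem exists_index {A : Type} [NormedRing A] [NormedAlgebra ℂ A] {y w : A} {a : ℕ → A} {N : ℕ}
    (hy : ∀ r, 1 ≤ r → Filter.Tendsto (fun j => y * a j ^ r) Filter.atTop (nhds 0))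
    (hw : Filter.Tendsto (fun j => a j * w) Filter.atTop (nhds 0)) (j : ℕ) (K : ℝ) :
    ∃ n : ℕ, (∀ r, 1 ≤ r → r ≤ N → (2 ^ j) ^ r * ‖y * a n ^ r‖ * K ^ N ≤ 1) ∧
      2 ^ j * ‖a n * w‖ ≤ 1 := by
  have h1 : ∀ r ∈ Finset.Icc 1 N, ∀ᶠ n in Filter.atTop,
      (2 ^ j : ℝ) ^ r * ‖y * a n ^ r‖ * K ^ N ≤ 1 := by
    intro r hr
    rw [Finset.mem_Icc] at hr
    have h := ((hy r hr.1).norm.const_mul ((2 ^ j : ℝ) ^ r)).mul_const (K ^ N)
    rw [norm_zero, mul_zero, zero_mul] at h
    exact h.eventually_le_const (by norm_num)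
  have h2 : ∀ᶠ n in Filter.atTop, (2 ^ j : ℝ) * ‖a n * w‖ ≤ 1 := by
    have h := hw.norm.const_mul (2 ^ j : ℝ)
    rw [norm_zero, mul_zero] at h
    exact h.eventually_le_const (by norm_num)
  rw [← Filter.eventually_all_finset] at h1
  obtain ⟨n, h3, h4⟩ := (h1.and h2).exists
  exact ⟨n, fun r hr1 hr2 => h3 r (Finset.mem_Icc.mpr ⟨hr1, hr2⟩), h4⟩

theorem norm_prod_le {A C : Type} [NormedRing A] [CommMonoid C] (ι : C →* A) (α : ℕ → C) (K : ℝ)
    (hK : 0 ≤ K) (m : Multiset ℕ) (hm : ∀ l ∈ m, ‖ι (α l)‖ ≤ K) (x : A) :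
    ‖x * ι (m.map α).prod‖ ≤ ‖x‖ * K ^ m.card := by
  induction m using Multiset.induction_on generalizing x with
  | empty => simp
  | cons l s ih =>
    rw [Multiset.map_cons, Multiset.prod_cons, map_mul, ← mul_assoc, Multiset.card_cons]
    have h1 := ih (fun l hl => hm l (Multiset.mem_cons_of_mem hl)) (x * ι (α l))
    have h2 : ‖x * ι (α l)‖ ≤ ‖x‖ * K :=
      (norm_mul_le _ _).trans (mul_le_mul_of_nonneg_left (hm l (Multiset.mem_cons_self l s))
        (norm_nonneg x))
    calc ‖x * ι (α l) * ι (s.map α).prod‖ ≤ ‖x * ι (α l)‖ * K ^ s.card := h1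
      _ ≤ (‖x‖ * K) * K ^ s.card := mul_le_mul_of_nonneg_right h2 (pow_nonneg hK _)
      _ = ‖x‖ * K ^ (s.card + 1) := by ring

theorem seq : SeqStatement := by
  intro A _ _ φ y w a N hcomm hφ hy hw
  classical
  choose g hg1 hg2 using fun (j : ℕ) (K : ℝ) => exists_index (N := N) hy hw j K
  -- the bounds and the indices
  let K : ℕ → ℝ := fun j => Nat.rec (1 : ℝ) (fun i Ki => Ki + ‖(2 ^ i : ℂ) • a (g i Ki)‖) j
  have hK0 : K 0 = 1 := rfl
  have hKs : ∀ j, K (j + 1) = K j + ‖(2 ^ j : ℂ) • a (g j (K j))‖ := fun j => rfl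
  let β : ℕ → A := fun j => (2 ^ j : ℂ) • a (g j (K j))
  have hKs' : ∀ j, K (j + 1) = K j + ‖β j‖ := hKs
  have hKmono : Monotone K := by
    apply monotone_nat_of_le_succ
    intro j
    rw [hKs']
    have := norm_nonneg (β j)
    linarith
  have hK1 : ∀ j, 1 ≤ K j := fun j => by
    rw [← hK0]
    exact hKmono (Nat.zero_le j)
  have hβK : ∀ l j, l < j → ‖β l‖ ≤ K j := by
    intro l j hlj
    have h1 := hKmono (Nat.succ_le_of_lt hlj)
    have h2 := hKs' l
    have h3 := hK1 l
    have h4 : K (Nat.succ l) = K (l + 1) := rfl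
    linarith
  have hβcomm : ∀ i j, β i * β j = β j * β i := by
    intro i j
    change (2 ^ i : ℂ) • a (g i (K i)) * (2 ^ j : ℂ) • a (g j (K j)) =
      (2 ^ j : ℂ) • a (g j (K j)) * (2 ^ i : ℂ) • a (g i (K i))
    rw [smul_mul_smul_comm, smul_mul_smul_comm, (hcomm _ _).eq, mul_comm (2 ^ i : ℂ)]
  have hc : IsMulCommutative (Submonoid.closure (Set.range β)) :=
    Submonoid.isMulCommutative_closure A (by
      rintro _ ⟨i, rfl⟩ _ ⟨j, rfl⟩
      exact hβcomm i j)
  let cm : CommMonoid (Submonoid.closure (Set.range β)) :=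
    { (inferInstance : Monoid (Submonoid.closure (Set.range β))) with
      mul_comm := fun a b => hc.is_comm.comm a b }
  refine ⟨Submonoid.closure (Set.range β), cm, (Submonoid.closure (Set.range β)).subtype,
    fun j => ⟨β j, Submonoid.subset_closure ⟨j, rfl⟩⟩, ?_, ?_, ?_⟩
  · intro m hm1 hmN
    set α : ℕ → Submonoid.closure (Set.range β) :=
      fun j => ⟨β j, Submonoid.subset_closure ⟨j, rfl⟩⟩ with hα
    have hne : m.toFinset.Nonempty := by
      rw [Multiset.toFinset_nonempty]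
      rintro rfl
      simp at hm1
    set j := m.toFinset.max' hne with hj
    have hjm : j ∈ m := by
      rw [← Multiset.mem_toFinset]
      exact Finset.max'_mem _ _
    have hle : ∀ l ∈ m, l ≤ j := fun l hl => Finset.le_max' _ _ (Multiset.mem_toFinset.mpr hl)
    have hsplit : m = Multiset.replicate (m.count j) j + m.filter (fun l => ¬ l = j) := by
      conv_lhs => rw [← Multiset.filter_add_not (fun l => l = j) m, Multiset.filter_eq']
    have hr : 1 ≤ m.count j := Multiset.one_le_count_iff_mem.mpr hjm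
    have hrN : m.count j ≤ N := (Multiset.count_le_card j m).trans hmN
    have hprod : (m.map α).prod = α j ^ m.count j * ((m.filter (fun l => ¬ l = j)).map α).prod := by
      conv_lhs => rw [hsplit]
      rw [Multiset.map_add, Multiset.prod_add, Multiset.map_replicate, Multiset.prod_replicate]
    have hια : ∀ l, (Submonoid.closure (Set.range β)).subtype (α l) = β l := fun l => rfl
    rw [hprod, map_mul, map_pow, hια, ← mul_assoc]
    have h1 := norm_prod_le (Submonoid.closure (Set.range β)).subtype α (K j)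
      (zero_le_one.trans (hK1 j)) (m.filter (fun l => ¬ l = j)) (by
        intro l hl
        rw [Multiset.mem_filter] at hl
        rw [hια]
        exact hβK l j (lt_of_le_of_ne (hle l hl.1) hl.2)) (y * β j ^ m.count j)
    refine h1.trans ?_
    have h2 : K j ^ (m.filter (fun l => ¬ l = j)).card ≤ K j ^ N :=
      pow_le_pow_right₀ (hK1 j) ((Multiset.card_le_card (Multiset.filter_le _ _)).trans hmN)
    refine (mul_le_mul_of_nonneg_left h2 (norm_nonneg _)).trans ?_
    have h3 : y * β j ^ m.count j =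
        ((2 ^ j : ℂ) ^ m.count j) • (y * a (g j (K j)) ^ m.count j) := by
      change y * ((2 ^ j : ℂ) • a (g j (K j))) ^ m.count j = _
      rw [smul_pow, mul_smul_comm]
    have h4 : ‖y * β j ^ m.count j‖ = (2 ^ j : ℝ) ^ m.count j * ‖y * a (g j (K j)) ^ m.count j‖ := by
      rw [h3, norm_smul, norm_pow, norm_pow]
      norm_num
    rw [h4]
    exact hg1 j (K j) (m.count j) hr hrN
  · intro j
    change ‖(2 ^ j : ℂ) • a (g j (K j)) * w‖ ≤ 1
    rw [smul_mul_assoc, norm_smul, norm_pow]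
    have h := hg2 j (K j)
    have h2 : ‖(2 : ℂ)‖ = 2 := by norm_num
    rw [h2]
    exact h
  · intro j
    change φ ((2 ^ j : ℂ) • a (g j (K j))) = 2 ^ j
    rw [map_smul, hφ, smul_eq_mul, mul_one]

end Pool.Agent.Lib.MP_b3782f_an.H3
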